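import Mathlib
import Pool.Agent.H6.Joint

namespace Pool.Agent.Results.MP_66cbdd_co.Upper

/-- A simple matroid: no loops and no parallel pairs (the case `x = y` excludes loops). -/
def Simple {α : Type} (M : Matroid α) : Prop := ∀ x ∈ M.E, ∀ y ∈ M.E, M.Indep {x, y}

/-- A line is a flat of rank two. -/
def IsLine {α : Type} (M : Matroid α) (l : Set α) : Prop := M.IsFlat l ∧ M.eRk l = 2

/-- The set of `n`-dimensional joints of a set of lines. -/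
def joints {α : Type} (M : Matroid α) (𝔏 : Finset (Set α)) (n : ℕ) : Set α :=
  {x ∈ M.E | ∃ l : Fin n → Set α, (∀ i, l i ∈ 𝔏 ∧ x ∈ l i) ∧ (n + 1 : ℕ∞) ≤ M.eRk (⋃ i, l i)}

theorem result (n m : ℕ) (h1 : 1 ≤ m) (h2 : 2 * m ≤ n) {α : Type} (M : Matroid α)
    (hf : M.E.Finite) (hs : Simple M) (𝔏 : Finset (Set α)) (hL : ∀ l ∈ 𝔏, IsLine M l) :
    ((joints M 𝔏 n).ncard : ℝ) ≤ (n + 1) * (𝔏.card : ℝ) ^ (1 + (m : ℝ) / (2 * m - 1)) := by
  obtain ⟨j, rfl⟩ : ∃ j, m = j + 1 := ⟨m - 1, by omega⟩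
  rw [show (((j + 1 : ℕ) : ℝ) / (2 * (j + 1 : ℕ) - 1)) = (j + 1) / (2 * j + 1) by
    push_cast; congr 1; ring]
  exact Pool.Agent.H6.Joint.real_bound hf hs 𝔏 hL h2

end Pool.Agent.Results.MP_66cbdd_co.Upper
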